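import Mathlib
import Pool.Prelude.Def_F_17a98086
import Pool.Agent.MP_dd175f_co.Defs

section

/-! The block version of the Erdos-Szekeres argument. -/

set_option autoImplicit false

namespace Pool.Agent.MP_dd175f_co

open Finset Nb34004ea

variable {n : ℕ}

/-- The number of edges of colour `b` from `v` to `A`. -/
def dg (c : Sym2 (Fin n) → Bool) (b : Bool) (v : Fin n) (A : Finset (Fin n)) : ℕ :=
  (A.filter fun a => c s(v, a) = b).card

lemma count_union (c : Sym2 (Fin n) → Bool) (b : Bool) (A H : Finset (Fin n)) :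
    colourEdgeCount c (A ∪ H) b ≤ colourEdgeCount c H b + A.card ^ 2 + ∑ v ∈ H, dg c b v A := by
  unfold colourEdgeCount
  have h1 : (A ∪ H).sym2.filter (fun e => ¬ e.IsDiag ∧ c e = b) ⊆
      (H.sym2.filter (fun e => ¬ e.IsDiag ∧ c e = b) ∪ (A ×ˢ A).image fun p => s(p.1, p.2)) ∪
        H.biUnion fun v => (A.filter fun a => c s(v, a) = b).image fun a => s(v, a) := by
    intro e he
    induction e using Sym2.ind with
    | h x y =>
      rw [mem_filter, mk_mem_sym2_iff, mem_union, mem_union] at he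
      obtain ⟨⟨hx | hx, hy | hy⟩, h⟩ := he
      · exact mem_union_left _ (mem_union_right _ (mem_image.2 ⟨(x, y), mk_mem_product hx hy, rfl⟩))
      · exact mem_union_right _ (mem_biUnion.2 ⟨y, hy, mem_image.2
          ⟨x, mem_filter.2 ⟨hx, by rw [Sym2.eq_swap]; exact h.2⟩, Sym2.eq_swap⟩⟩)
      · exact mem_union_right _ (mem_biUnion.2 ⟨x, hx, mem_image.2
          ⟨y, mem_filter.2 ⟨hy, h.2⟩, rfl⟩⟩)
      · exact mem_union_left _ (mem_union_left _ (mem_filter.2 ⟨mk_mem_sym2_iff.2 ⟨hx, hy⟩, h⟩))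
  refine (card_le_card h1).trans ((card_union_le _ _).trans (Nat.add_le_add
    ((card_union_le _ _).trans (Nat.add_le_add_left (card_image_le.trans ?_) _))
    (card_biUnion_le.trans (sum_le_sum fun v _ => card_image_le))))
  rw [card_product, sq]

/-- Many blocks see few edges of the minority colour of `v`. -/
lemma many_blocks (c : Sym2 (Fin n) → Bool) (b : Bool) (P : Finset (Fin n)) (v : Fin n)
    (hv : v ∈ P) (hb : dg c b v (P.erase v) ≤ dg c (!b) v (P.erase v)) (m i : ℕ) (hi : i ≤ m) :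
    ((P.card - 1) / 2).choose (m - i) * ((P.card - 1) / 2).choose i ≤
      ((P.powersetCard m).filter fun A => v ∉ A ∧ dg c b v A ≤ i).card := by
  have h0 : dg c b v (P.erase v) + dg c (!b) v (P.erase v) = P.card - 1 := by
    rw [← card_erase_of_mem hv, ← card_filter_add_card_filter_not (fun a => c s(v, a) = b)]
    unfold dg
    congr 2
    exact filter_congr fun a _ => by cases b <;> simp
  obtain ⟨D, hD, hDc⟩ := exists_subset_card_eq
    (s := (P.erase v).filter fun a => c s(v, a) = !b) (n := (P.card - 1) / 2)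
    (by change _ ≤ dg c (!b) v (P.erase v); omega)
  have hD' : D ⊆ P.erase v := hD.trans (filter_subset _ _)
  obtain ⟨E, hE, hEc⟩ := exists_subset_card_eq (s := P.erase v \ D) (n := (P.card - 1) / 2)
    (by rw [card_sdiff_of_subset hD', card_erase_of_mem hv, hDc]; omega)
  have hDE : Disjoint D E := disjoint_of_subset_right hE disjoint_sdiff
  have hE' : E ⊆ P.erase v := hE.trans sdiff_subset
  have e : ((P.card - 1) / 2).choose (m - i) * ((P.card - 1) / 2).choose i =
      (D.powersetCard (m - i) ×ˢ E.powersetCard i).card := by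
    rw [card_product, card_powersetCard, card_powersetCard, hDc, hEc]
  rw [e]
  refine card_le_card_of_injOn (fun p => p.1 ∪ p.2) (fun p hp => ?_) (fun p hp q hq hpq => ?_)
  · rw [coe_product] at hp
    obtain ⟨h1, h2⟩ := mem_powersetCard.1 hp.1
    obtain ⟨h3, h4⟩ := mem_powersetCard.1 hp.2
    have h5 : p.1 ∪ p.2 ⊆ P.erase v := union_subset (h1.trans hD') (h3.trans hE')
    refine mem_coe.2 (mem_filter.2 ⟨mem_powersetCard.2 ⟨h5.trans (erase_subset _ _), ?_⟩,
      fun h => notMem_erase v P (h5 h), ?_⟩)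
    · rw [card_union_of_disjoint (Disjoint.mono h1 h3 hDE), h2, h4]
      omega
    · rw [← h4]
      refine card_le_card fun a ha => ?_
      obtain ⟨a1, a2⟩ := mem_filter.1 ha
      refine (mem_union.1 a1).resolve_left fun a3 => ?_
      have := (mem_filter.1 (hD (h1 a3))).2
      rw [a2] at this
      simp at this
  · rw [coe_product] at hp hq
    have p1 := (mem_powersetCard.1 hp.1).1
    have p2 := (mem_powersetCard.1 hp.2).1
    have q1 := (mem_powersetCard.1 hq.1).1
    have q2 := (mem_powersetCard.1 hq.2).1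
    have hpq' : p.1 ∪ p.2 = q.1 ∪ q.2 := hpq
    have k : ∀ a, a ∈ D → a ∈ E → False := fun a h1 h2 => disjoint_left.1 hDE h1 h2
    have k2 : ∀ a, a ∈ p.1 ∨ a ∈ p.2 ↔ a ∈ q.1 ∨ a ∈ q.2 := fun a => by
      rw [← mem_union, ← mem_union, hpq']
    refine Prod.ext (Finset.ext fun a => ⟨fun h => ?_, fun h => ?_⟩)
      (Finset.ext fun a => ⟨fun h => ?_, fun h => ?_⟩)
    · exact ((k2 a).1 (Or.inl h)).resolve_right fun h' => k a (p1 h) (q2 h')
    · exact ((k2 a).2 (Or.inl h)).resolve_right fun h' => k a (q1 h) (p2 h')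
    · exact ((k2 a).1 (Or.inr h)).resolve_left fun h' => k a (q1 h') (p2 h)
    · exact ((k2 a).2 (Or.inr h)).resolve_left fun h' => k a (p1 h') (q2 h)

lemma choose_ineq (N m i : ℕ) (hi : i ≤ m) (hm : 0 < m) (hN : 4 * m ^ 2 ≤ N) :
    (N.choose m : ℝ) * m.choose i ≤
      2 * 2 ^ m * ((((N - 1) / 2).choose (m - i) * ((N - 1) / 2).choose i : ℕ) : ℝ) := by
  set h := (N - 1) / 2 with hh
  have hm2 : m ≤ m ^ 2 := Nat.le_self_pow two_ne_zero m
  have hN0 : (0 : ℝ) < N := by exact_mod_cast (by nlinarith : 0 < N)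
  have hx : (0 : ℝ) ≤ N / 2 - m := by
    have : (2 * m : ℝ) ≤ N := by exact_mod_cast (by omega : 2 * m ≤ N)
    linarith
  have key : ∀ r ≤ m, ((N : ℝ) / 2 - m) ^ r / r.factorial ≤ h.choose r := fun r hr => by
    refine le_trans ?_ (Nat.pow_le_choose r h)
    have h1 : (N : ℝ) / 2 - m ≤ ((h + 1 - r : ℕ) : ℝ) := by
      have : (N : ℝ) ≤ 2 * ((h + 1 - r : ℕ) : ℝ) + 2 * m := by
        exact_mod_cast (by omega : N ≤ 2 * (h + 1 - r) + 2 * m)
      linarith
    gcongr
  have h1 : (N.choose m : ℝ) ≤ (N : ℝ) ^ m / m.factorial := Nat.choose_le_pow_div m N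
  have h2 : (m.choose i : ℝ) = m.factorial / (i.factorial * (m - i).factorial) :=
    Nat.cast_choose ℝ hi
  have h3 : (N : ℝ) ^ m ≤ 2 * 2 ^ m * ((N : ℝ) / 2 - m) ^ m := by
    have a1 := one_add_mul_le_pow (a := -(2 * m / N : ℝ)) (by
      have : (2 * m / N : ℝ) ≤ 1 := by rw [div_le_one hN0]; linarith
      linarith) m
    have a2 : (1 / 2 : ℝ) ≤ 1 + m * -(2 * m / N : ℝ) := by
      have a3 : (4 * m ^ 2 : ℝ) ≤ N := by exact_mod_cast hN
      have : (m * (2 * m / N) : ℝ) ≤ 1 / 2 := by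
        rw [← mul_div_assoc, div_le_iff₀ hN0]; nlinarith
      linarith
    have a4 : (2 : ℝ) ^ m * ((N : ℝ) / 2 - m) ^ m = (N : ℝ) ^ m * (1 + -(2 * m / N : ℝ)) ^ m := by
      rw [← mul_pow, ← mul_pow]
      congr 1
      field_simp
      ring
    rw [mul_assoc, a4]
    nlinarith [pow_pos hN0 m]
  have h4 : ((N : ℝ) / 2 - m) ^ m = ((N : ℝ) / 2 - m) ^ (m - i) * ((N : ℝ) / 2 - m) ^ i := by
    rw [← pow_add, Nat.sub_add_cancel hi]
  have f1 : (0 : ℝ) < m.factorial := by positivity
  calc (N.choose m : ℝ) * m.choose i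
      ≤ (N : ℝ) ^ m / m.factorial * (m.factorial / (i.factorial * (m - i).factorial)) := by
        rw [h2]; gcongr
    _ = (N : ℝ) ^ m / (i.factorial * (m - i).factorial) := by field_simp
    _ ≤ 2 * 2 ^ m * ((N : ℝ) / 2 - m) ^ m / (i.factorial * (m - i).factorial) := by gcongr
    _ = 2 * 2 ^ m * (((N : ℝ) / 2 - m) ^ (m - i) / (m - i).factorial *
          (((N : ℝ) / 2 - m) ^ i / i.factorial)) := by rw [h4]; field_simp
    _ ≤ _ := by
        rw [Nat.cast_mul]
        gcongr
        · exact key _ (Nat.sub_le _ _)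
        · exact key _ hi

/-- One step: a block, and a large pool of vertices that see few edges of colour `b` to it. -/
lemma step (c : Sym2 (Fin n) → Bool) (P : Finset (Fin n)) (m : ℕ) (hm : 0 < m)
    (hN : 4 * m ^ 2 ≤ P.card) : ∃ b : Bool, ∀ i ≤ m, ∃ A ⊆ P, A.card = m ∧ ∃ Q ⊆ P, Disjoint A Q ∧
      (∀ v ∈ Q, dg c b v A ≤ i) ∧ (P.card : ℝ) * m.choose i ≤ 4 * 2 ^ m * Q.card := by
  obtain ⟨b, hb⟩ : ∃ b : Bool, P.card ≤
      2 * (P.filter fun v => dg c b v (P.erase v) ≤ dg c (!b) v (P.erase v)).card := by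
    by_contra hn
    push Not at hn
    have h1 := hn true
    have h2 := hn false
    have h3 : P ⊆ (P.filter fun v => dg c true v (P.erase v) ≤ dg c (!true) v (P.erase v)) ∪
        P.filter fun v => dg c false v (P.erase v) ≤ dg c (!false) v (P.erase v) := fun v hv => by
      rcases le_total (dg c true v (P.erase v)) (dg c false v (P.erase v)) with h | h
      · exact mem_union_left _ (mem_filter.2 ⟨hv, h⟩)
      · exact mem_union_right _ (mem_filter.2 ⟨hv, h⟩)
    have h4 := (card_le_card h3).trans (card_union_le _ _)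
    omega
  refine ⟨b, fun i hi => ?_⟩
  set S := P.filter fun v => dg c b v (P.erase v) ≤ dg c (!b) v (P.erase v)
  set K := ((P.card - 1) / 2).choose (m - i) * ((P.card - 1) / 2).choose i with hK
  have hm2 : m ≤ m ^ 2 := Nat.le_self_pow two_ne_zero m
  have h1 : S.card * K ≤
      ∑ A ∈ P.powersetCard m, (S.filter fun v => v ∉ A ∧ dg c b v A ≤ i).card := by
    have e : ∑ A ∈ P.powersetCard m, (S.filter fun v => v ∉ A ∧ dg c b v A ≤ i).card =
        ∑ v ∈ S, ((P.powersetCard m).filter fun A => v ∉ A ∧ dg c b v A ≤ i).card := by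
      simp only [card_filter]
      exact sum_comm
    rw [e, ← smul_eq_mul, ← sum_const]
    exact sum_le_sum fun v hv => many_blocks c b P v (mem_filter.1 hv).1 (mem_filter.1 hv).2 m i hi
  obtain ⟨A, hA, hmax⟩ := exists_max_image (P.powersetCard m)
    (fun A => (S.filter fun v => v ∉ A ∧ dg c b v A ≤ i).card)
    (powersetCard_nonempty.2 (by omega))
  have h2 := h1.trans (sum_le_card_nsmul _ _ _ hmax)
  rw [card_powersetCard, smul_eq_mul] at h2
  refine ⟨A, (mem_powersetCard.1 hA).1, (mem_powersetCard.1 hA).2,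
    S.filter fun v => v ∉ A ∧ dg c b v A ≤ i,
    (filter_subset _ S).trans (filter_subset _ _),
    disjoint_left.2 fun v h h' => (mem_filter.1 h').2.1 h, fun v hv => (mem_filter.1 hv).2.2, ?_⟩
  have h3 := choose_ineq P.card m i hi hm hN
  have h4 : (0 : ℝ) < P.card.choose m := by exact_mod_cast Nat.choose_pos (by omega)
  have h5 : (P.card : ℝ) ≤ 2 * S.card := by exact_mod_cast hb
  have h6 : (S.card : ℝ) * K ≤ P.card.choose m *
      (S.filter fun v => v ∉ A ∧ dg c b v A ≤ i).card := by exact_mod_cast h2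
  refine le_of_mul_le_mul_left ?_ h4
  calc (P.card.choose m : ℝ) * (P.card * m.choose i) = P.card * (P.card.choose m * m.choose i) := by
        ring
    _ ≤ (2 * S.card) * (2 * 2 ^ m * K) := by gcongr
    _ = 4 * 2 ^ m * (S.card * K) := by ring
    _ ≤ 4 * 2 ^ m * (P.card.choose m * (S.filter fun v => v ∉ A ∧ dg c b v A ≤ i).card) := by
        gcongr
    _ = _ := by ring

/-- The loss in the size of the pool after `L` blocks. -/
noncomputable def loss (m : ℕ) (i : ℕ → ℕ) (L : ℕ) : ℝ :=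
  ∏ t ∈ range L, 4 * 2 ^ m / (m.choose (i t) : ℝ)

lemma one_le_loss (m : ℕ) (i : ℕ → ℕ) (hi : ∀ t, i t ≤ m) (L : ℕ) : 1 ≤ loss m i L := by
  refine Finset.one_le_prod fun t _ => ?_
  have h1 : (0 : ℝ) < m.choose (i t) := by exact_mod_cast Nat.choose_pos (hi t)
  have h2 : (m.choose (i t) : ℝ) ≤ 2 ^ m := by exact_mod_cast Nat.choose_le_two_pow m (i t)
  rw [le_div_iff₀ h1]
  linarith

/-- A union of `L` blocks with few edges of colour `b`. -/
def Good (c : Sym2 (Fin n) → Bool) (m : ℕ) (i : ℕ → ℕ) (b : Bool) (L : ℕ) (H : Finset (Fin n)) :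
    Prop :=
  H.card = L * m ∧ colourEdgeCount c H b ≤ ∑ t ∈ range L, (m ^ 2 + t * m * i t)

lemma Good.succ {c : Sym2 (Fin n) → Bool} {m : ℕ} {i : ℕ → ℕ} {b : Bool} {L : ℕ}
    {A H : Finset (Fin n)} (h : Good c m i b L H) (hA : A.card = m) (hd : Disjoint A H)
    (hv : ∀ v ∈ H, dg c b v A ≤ i L) : Good c m i b (L + 1) (A ∪ H) := by
  refine ⟨by rw [card_union_of_disjoint hd, hA, h.1]; ring, (count_union c b A H).trans ?_⟩
  have h1 := sum_le_card_nsmul _ _ _ hv
  rw [h.1, smul_eq_mul] at h1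
  rw [sum_range_succ, hA]
  have := h.2
  omega

lemma chain (c : Sym2 (Fin n) → Bool) (m : ℕ) (hm : 0 < m) (i : ℕ → ℕ) (hi : ∀ t, i t ≤ m)
    (p q : ℕ) (P : Finset (Fin n)) (hP : 4 * (m : ℝ) ^ 2 * loss m i p * loss m i q ≤ P.card) :
    ∃ H ⊆ P, Good c m i true p H ∨ Good c m i false q H := by
  induction p generalizing q P with
  | zero => exact ⟨∅, empty_subset _, Or.inl ⟨by simp, by simp [colourEdgeCount]⟩⟩
  | succ p ihp =>
    induction q generalizing P with
    | zero => exact ⟨∅, empty_subset _, Or.inr ⟨by simp, by simp [colourEdgeCount]⟩⟩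
    | succ q ihq =>
      have l1 := one_le_loss m i hi
      have hN : 4 * m ^ 2 ≤ P.card := by
        have h1 : 4 * (m : ℝ) ^ 2 * 1 * 1 ≤ 4 * (m : ℝ) ^ 2 * loss m i (p + 1) * loss m i (q + 1) := by
          have := l1 (p + 1)
          gcongr
          exact l1 (q + 1)
        have h2 : (4 * (m : ℝ) ^ 2) ≤ P.card := by linarith
        exact_mod_cast h2
      have key : ∀ (X : ℝ) (t : ℕ) (Q : Finset (Fin n)),
          X * (4 * 2 ^ m / (m.choose (i t) : ℝ)) ≤ P.card →
          (P.card : ℝ) * m.choose (i t) ≤ 4 * 2 ^ m * Q.card → X ≤ Q.card := fun X t Q h1 h2 => by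
        have h3 : (0 : ℝ) < m.choose (i t) := by exact_mod_cast Nat.choose_pos (hi t)
        rw [← mul_div_assoc, div_le_iff₀ h3] at h1
        exact le_of_mul_le_mul_left (a := 4 * 2 ^ m) (by linarith) (by positivity)
      obtain ⟨b, hb⟩ := step c P m hm hN
      cases b with
      | true =>
        obtain ⟨A, a1, a2, Q, a3, a4, a5, a6⟩ := hb (i p) (hi p)
        obtain ⟨H, h1, h2 | h2⟩ := ihp (q + 1) Q (key _ p Q (by
          rw [loss, prod_range_succ] at hP
          refine le_trans (le_of_eq ?_) hP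
          rw [loss]; ring) a6)
        · exact ⟨A ∪ H, union_subset a1 (h1.trans a3), Or.inl
            (h2.succ a2 (disjoint_of_subset_right h1 a4) fun v hv => a5 v (h1 hv))⟩
        · exact ⟨H, h1.trans a3, Or.inr h2⟩
      | false =>
        obtain ⟨A, a1, a2, Q, a3, a4, a5, a6⟩ := hb (i q) (hi q)
        obtain ⟨H, h1, h2 | h2⟩ := ihq Q (key _ q Q (by
          rw [loss.eq_1 m i (q + 1), prod_range_succ] at hP
          refine le_trans (le_of_eq ?_) hP
          rw [loss.eq_1 m i q]; ring) a6)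
        · exact ⟨H, h1.trans a3, Or.inl h2⟩
        · exact ⟨A ∪ H, union_subset a1 (h1.trans a3), Or.inr
            (h2.succ a2 (disjoint_of_subset_right h1 a4) fun v hv => a5 v (h1 hv))⟩

/-- The combinatorial lower bound. -/
lemma lt_F (α : ℝ) (m : ℕ) (hm : 0 < m) (i : ℕ → ℕ) (hi : ∀ t, i t ≤ m) (T : ℕ)
    (h1 : 4 * (m : ℝ) ^ 2 * loss m i T * loss m i T ≤ n)
    (h2 : ((∑ t ∈ range T, (m ^ 2 + t * m * i t) : ℕ) : ℝ) ≤ α * ((T * m).choose 2 : ℕ)) :
    T * m < F n α := by
  have hne : {k : ℕ | ∃ c : Sym2 (Fin n) → Bool, IsBalancedAbove n α c k}.Nonempty :=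
    ⟨n + 1, fun _ => true, fun H hH => absurd (hH.trans (card_le_univ H)) (by simp)⟩
  obtain ⟨c, hc⟩ := Nat.sInf_mem hne
  by_contra hn
  obtain ⟨H, -, h3⟩ := chain c m hm i hi T T univ (by simpa using h1)
  obtain ⟨b, h4, h5⟩ : ∃ b, Good c m i b T H := h3.elim (fun h => ⟨_, h⟩) fun h => ⟨_, h⟩
  have h6 := hc H (by rw [h4]; exact not_lt.1 hn) b
  rw [h4] at h6
  exact absurd (h6.trans_le (Nat.cast_le.2 h5)) (not_lt.2 h2)

end Pool.Agent.MP_dd175f_co

end

section

/-! Calculus facts on the two rates. -/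

set_option autoImplicit false

namespace Pool.Agent.MP_dd175f_co

open Finset Real Filter Topology

@[fun_prop] lemma cont_logcosh {X : Type*} [TopologicalSpace X] {f : X → ℝ} (hf : Continuous f) :
    Continuous fun x => log (cosh (f x)) :=
  (continuous_cosh.comp hf).log fun _ => (cosh_pos _).ne'

@[fun_prop] lemma cont_tanh {X : Type*} [TopologicalSpace X] {f : X → ℝ} (hf : Continuous f) :
    Continuous fun x => tanh (f x) := by
  simp only [tanh_eq_sinh_div_cosh]
  exact (continuous_sinh.comp hf).div (continuous_cosh.comp hf) fun _ => (cosh_pos _).ne'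

lemma fenchel {p : ℝ} (h0 : 0 < p) (h1 : p < 1) (y : ℝ) :
    y * (1 - 2 * p) - rateD p ≤ log (cosh y) := by
  have hc := cosh_pos y
  have h2 : 0 < 1 - p := sub_pos.2 h1
  have a1 := log_le_sub_one_of_pos (show 0 < exp (-y) / (2 * p * cosh y) by positivity)
  have a2 := log_le_sub_one_of_pos (show 0 < exp y / (2 * (1 - p) * cosh y) by positivity)
  rw [log_div (by positivity) (by positivity), log_exp, log_mul (by positivity) hc.ne',
    log_mul two_ne_zero (by positivity)] at a1 a2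
  have a3 : p * (exp (-y) / (2 * p * cosh y) - 1) +
      (1 - p) * (exp y / (2 * (1 - p) * cosh y) - 1) = 0 := by
    have : exp (-y) = 2 * cosh y - exp y := by rw [cosh_eq]; ring
    rw [this]
    field_simp
    ring
  have b1 := mul_le_mul_of_nonneg_left a1 h0.le
  have b2 := mul_le_mul_of_nonneg_left a2 h2.le
  unfold rateD
  linarith

lemma integral_lin (a b : ℝ) : ∫ t in (0 : ℝ)..1, (a * t - b) = a / 2 - b := by
  rw [intervalIntegral.integral_sub (by apply Continuous.intervalIntegrable; fun_prop)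
    (by apply Continuous.intervalIntegrable; fun_prop), intervalIntegral.integral_const_mul]
  simp [integral_id]
  ring

lemma term_le_D {α : ℝ} (h0 : 0 < α) (h1 : α < 1) (κ : ℝ) :
    κ * (1 / 2 - α) - ∫ t in (0 : ℝ)..1, log (cosh (κ * t)) ≤ rateD α := by
  have h2 : ∫ t in (0 : ℝ)..1, (κ * (1 - 2 * α) * t - rateD α) ≤
      ∫ t in (0 : ℝ)..1, log (cosh (κ * t)) :=
    intervalIntegral.integral_mono_on zero_le_one (by apply Continuous.intervalIntegrable; fun_prop)
      (by apply Continuous.intervalIntegrable; fun_prop) fun t _ => by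
        have := fenchel h0 h1 (κ * t)
        linarith
  rw [integral_lin] at h2
  linarith

lemma rateI_le_D {α : ℝ} (h0 : 0 < α) (h1 : α < 1) : rateI α ≤ rateD α :=
  ciSup_le (term_le_D h0 h1)

lemma term_le_I {α : ℝ} (h0 : 0 < α) (h1 : α < 1) (κ : ℝ) :
    κ * (1 / 2 - α) - ∫ t in (0 : ℝ)..1, log (cosh (κ * t)) ≤ rateI α :=
  le_ciSup (f := fun κ : ℝ => κ * (1 / 2 - α) - ∫ t in (0 : ℝ)..1, log (cosh (κ * t)))
    ⟨rateD α, by rintro _ ⟨κ, rfl⟩; exact term_le_D h0 h1 κ⟩ κ

lemma integral_sq (a : ℝ) : ∫ t in (0 : ℝ)..1, a * t ^ 2 = a / 3 := by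
  rw [intervalIntegral.integral_const_mul, integral_pow]
  norm_num
  ring

lemma le_rateI {α : ℝ} (h0 : 0 < α) (h1 : α < 1) : 3 / 2 * (1 / 2 - α) ^ 2 ≤ rateI α := by
  refine le_trans ?_ (term_le_I h0 h1 (3 * (1 / 2 - α)))
  have h2 : ∫ t in (0 : ℝ)..1, log (cosh (3 * (1 / 2 - α) * t)) ≤
      ∫ t in (0 : ℝ)..1, (3 * (1 / 2 - α)) ^ 2 / 2 * t ^ 2 :=
    intervalIntegral.integral_mono_on zero_le_one (by apply Continuous.intervalIntegrable; fun_prop)
      (by apply Continuous.intervalIntegrable; fun_prop) fun t _ => by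
        rw [log_le_iff_le_exp (cosh_pos _)]
        exact (cosh_le_exp_half_sq _).trans (le_of_eq (by congr 1; ring))
  rw [integral_sq] at h2
  linarith

lemma rateI_pos {α : ℝ} (h0 : 0 < α) (h1 : α < 1 / 2) : 0 < rateI α :=
  lt_of_lt_of_le (by have := sub_pos.2 h1; positivity) (le_rateI h0 (by linarith))

lemma log_approx {x : ℝ} (h : |x| ≤ 1 / 2) : |log (1 - x) + x + x ^ 2 / 2| ≤ 2 * |x| ^ 3 := by
  have h1 := abs_log_sub_add_sum_range_le (h.trans_lt (by norm_num)) 2
  simp only [sum_range_succ, sum_range_zero] at h1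
  norm_num at h1
  refine le_trans (le_of_eq (by congr 1; ring)) (h1.trans ?_)
  rw [div_le_iff₀ (by linarith)]
  nlinarith [pow_nonneg (abs_nonneg x) 3]

lemma rateD_approx {x : ℝ} (h0 : 0 ≤ x) (h : x ≤ 1 / 2) :
    |rateD ((1 - x) / 2) - x ^ 2 / 2| ≤ 2 * x ^ 3 := by
  have a1 := log_approx (x := x) (by rwa [abs_of_nonneg h0])
  have a2 := log_approx (x := -x) (by rwa [abs_neg, abs_of_nonneg h0])
  rw [abs_neg, sub_neg_eq_add] at a2
  rw [abs_of_nonneg h0, abs_le] at a1 a2
  have e : rateD ((1 - x) / 2) = ((1 - x) * log (1 - x) + (1 + x) * log (1 + x)) / 2 := by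
    unfold rateD
    rw [show 1 - (1 - x) / 2 = (1 + x) / 2 by ring, log_div (by linarith) two_ne_zero,
      log_div (by linarith) two_ne_zero]
    ring
  rw [e, abs_le]
  have b1 : 0 ≤ 1 - x := by linarith
  have b2 : 0 ≤ 1 + x := by linarith
  constructor
  · nlinarith [mul_le_mul_of_nonneg_left a1.1 b1, mul_le_mul_of_nonneg_left a2.1 b2]
  · nlinarith [mul_le_mul_of_nonneg_left a1.2 b1, mul_le_mul_of_nonneg_left a2.2 b2]

lemma rateI_le {ε : ℝ} (h0 : 0 ≤ ε) (h : ε ≤ 1 / 6) :
    rateI (1 / 2 - ε) ≤ 3 / 2 * ε ^ 2 + 54 * ε ^ 3 := by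
  refine ciSup_le fun κ => ?_
  have h2 : ∫ t in (0 : ℝ)..1, (3 * ε * κ - 9 / 2 * ε ^ 2 - 0) * t ^ 2 ≤
      ∫ t in (0 : ℝ)..1, (log (cosh (κ * t)) - (0 * t - 54 * ε ^ 3)) :=
    intervalIntegral.integral_mono_on zero_le_one (by apply Continuous.intervalIntegrable; fun_prop)
      (by apply Continuous.intervalIntegrable; fun_prop) fun t ht => by
        have a0 : 0 ≤ 3 * ε * t := by have := ht.1; positivity
        have a1 : 3 * ε * t ≤ 3 * ε := by nlinarith [ht.2]
        have a2 := fenchel (p := (1 - 3 * ε * t) / 2) (by linarith) (by linarith) (κ * t)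
        have a3 := (abs_le.1 (rateD_approx a0 (by linarith))).2
        have a4 := pow_le_pow_left₀ a0 a1 3
        nlinarith
  rw [integral_sq, intervalIntegral.integral_sub (by apply Continuous.intervalIntegrable; fun_prop)
    (by apply Continuous.intervalIntegrable; fun_prop), integral_lin] at h2
  linarith

lemma ratio_tendsto : Tendsto (fun α => 4 * rateI α / rateD α) (𝓝[<] (1 / 2)) (𝓝 3) := by
  have t0 : Tendsto (fun α : ℝ => 1 / 2 - α) (𝓝[<] (1 / 2)) (𝓝 0) := by
    have := (tendsto_id.const_sub (1 / 2 : ℝ)).mono_left (nhdsWithin_le_nhds (s := Set.Iio (1 / 2))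
      (a := (1 / 2 : ℝ)))
    rwa [sub_self] at this
  have t1 : Tendsto (fun α : ℝ => 4 * (3 / 2) / (2 + 16 * (1 / 2 - α))) (𝓝[<] (1 / 2)) (𝓝 3) := by
    have := (tendsto_const_nhds (x := (4 * (3 / 2) : ℝ))).div ((t0.const_mul 16).const_add 2)
      (by norm_num)
    norm_num at this ⊢
    exact this
  have t2 : Tendsto (fun α : ℝ => 4 * (3 / 2 + 54 * (1 / 2 - α)) / (2 - 16 * (1 / 2 - α)))
      (𝓝[<] (1 / 2)) (𝓝 3) := by
    have := (((t0.const_mul 54).const_add (3 / 2)).const_mul 4).div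
      ((t0.const_mul 16).const_sub 2) (by norm_num)
    norm_num at this ⊢
    exact this
  have e : ∀ᶠ α : ℝ in 𝓝[<] (1 / 2), 4 * (3 / 2) / (2 + 16 * (1 / 2 - α)) ≤ 4 * rateI α / rateD α ∧
      4 * rateI α / rateD α ≤ 4 * (3 / 2 + 54 * (1 / 2 - α)) / (2 - 16 * (1 / 2 - α)) := by
    filter_upwards [Ioo_mem_nhdsLT (show (2 / 5 : ℝ) < 1 / 2 by norm_num)] with α hα
    obtain ⟨ε, rfl⟩ : ∃ ε, α = 1 / 2 - ε := ⟨1 / 2 - α, by ring⟩
    have e0 : 0 < ε := by linarith [hα.2]
    have e1 : ε < 1 / 10 := by linarith [hα.1]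
    have a1 := le_rateI (α := 1 / 2 - ε) (by linarith) (by linarith)
    have a2 := rateI_le e0.le (by linarith)
    have a3 := abs_le.1 (rateD_approx (x := 2 * ε) (by linarith) (by linarith))
    rw [show (1 - 2 * ε) / 2 = 1 / 2 - ε by ring] at a3
    rw [sub_sub_cancel] at a1 ⊢
    have a4 : 0 < 2 - 16 * ε := by linarith
    have a5 : ε ^ 2 * (2 - 16 * ε) ≤ rateD (1 / 2 - ε) := by linarith [a3.1]
    have a6 : 0 < rateD (1 / 2 - ε) := lt_of_lt_of_le (by positivity) a5
    have a7 : rateD (1 / 2 - ε) ≤ ε ^ 2 * (2 + 16 * ε) := by linarith [a3.2]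
    constructor
    · rw [div_le_div_iff₀ (by linarith) a6]
      nlinarith [mul_le_mul_of_nonneg_right a1 (show 0 ≤ 2 + 16 * ε by linarith)]
    · rw [div_le_div_iff₀ a6 a4]
      nlinarith [mul_le_mul_of_nonneg_right a2 a4.le,
        mul_le_mul_of_nonneg_left a5 (show 0 ≤ 3 / 2 + 54 * ε by linarith)]
  exact tendsto_of_tendsto_of_tendsto_of_le_of_le' t1 t2 (e.mono fun _ h => h.1)
    (e.mono fun _ h => h.2)

/-- The largest term of a binomial expansion. -/
lemma mode (m : ℕ) (y : ℝ) : ∃ i ≤ m,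
    (2 : ℝ) ^ m / m.choose i ≤ (m + 1) * exp (y * (m - 2 * i) - m * log (cosh y)) ∧
      |(m : ℝ) - 2 * i - m * tanh y| ≤ 2 := by
  have ha := exp_pos (-y)
  have hb := exp_pos y
  obtain ⟨i, hi, hmax⟩ := exists_max_image (range (m + 1))
    (fun i => exp (-y) ^ i * exp y ^ (m - i) * (m.choose i : ℝ)) ⟨0, by simp⟩
  have him : i ≤ m := Nat.lt_succ_iff.1 (mem_range.1 hi)
  have rel : ∀ j < m, ∃ X : ℝ, 0 < X ∧
      exp (-y) ^ j * exp y ^ (m - j) * (m.choose j : ℝ) = X * (exp y * (j + 1)) ∧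
      exp (-y) ^ (j + 1) * exp y ^ (m - (j + 1)) * (m.choose (j + 1) : ℝ) =
        X * (exp (-y) * (m - j)) := fun j hj => by
    have h1 : (0 : ℝ) < m.choose j := by exact_mod_cast Nat.choose_pos hj.le
    have h2 : (m.choose (j + 1) : ℝ) * (j + 1) = m.choose j * (m - j) := by
      rw [← Nat.cast_sub hj.le]; exact_mod_cast Nat.choose_succ_right_eq m j
    refine ⟨exp (-y) ^ j * exp y ^ (m - (j + 1)) * m.choose j / (j + 1), by positivity, ?_, ?_⟩
    · rw [show m - j = m - (j + 1) + 1 by omega, pow_succ]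
      field_simp
    · rw [eq_div_of_mul_eq (by positivity) h2, pow_succ]
      field_simp
  have u1 : exp (-y) * (m - i) ≤ exp y * (i + 1) := by
    rcases him.eq_or_lt with e | e
    · rw [e, sub_self, mul_zero]; positivity
    · obtain ⟨X, x0, x1, x2⟩ := rel i e
      have := hmax (i + 1) (mem_range.2 (by omega))
      rw [x1, x2] at this
      exact le_of_mul_le_mul_left this x0
  have u2 : exp y * i ≤ exp (-y) * (m - i + 1) := by
    rcases i with _ | j
    · simp only [Nat.cast_zero, mul_zero, sub_zero]; positivity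
    · obtain ⟨X, x0, x1, x2⟩ := rel j him
      have := hmax j (mem_range.2 (by omega))
      rw [x1, x2] at this
      have := le_of_mul_le_mul_left this x0
      push_cast
      linarith
  refine ⟨i, him, ?_, ?_⟩
  · have h1 : (0 : ℝ) < m.choose i := by exact_mod_cast Nat.choose_pos him
    have h2 := sum_le_card_nsmul _ _ _ hmax
    rw [← add_pow, card_range, nsmul_eq_mul, show exp (-y) + exp y = 2 * cosh y by
      rw [cosh_eq]; ring, mul_pow, ← exp_nat_mul, ← exp_nat_mul, ← exp_add, Nat.cast_sub him,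
      Nat.cast_succ] at h2
    rw [exp_sub, exp_nat_mul, exp_log (cosh_pos y), ← mul_div_assoc,
      div_le_div_iff₀ h1 (pow_pos (cosh_pos y) m), mul_assoc]
    refine h2.trans (le_of_eq ?_)
    congr 3
    ring
  · have e : (m : ℝ) - 2 * i - m * tanh y =
        2 * (exp (-y) * m - i * (exp y + exp (-y))) / (exp y + exp (-y)) := by
      rw [tanh_eq]; field_simp; ring
    rw [e, abs_le, le_div_iff₀ (by positivity), div_le_iff₀ (by positivity)]
    constructor <;> nlinarith

/-- Riemann sums of a monotone function. -/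
lemma riemann {f : ℝ → ℝ} (hf : MonotoneOn f (Set.Ici 0)) (T : ℕ) (hT : 0 < T) :
    ∑ t ∈ range T, f (t / T) ≤ T * ∫ s in (0 : ℝ)..1, f s ∧
      T * (∫ s in (0 : ℝ)..1, f s) + f 0 - f 1 ≤ ∑ t ∈ range T, f (t / T) := by
  have hT' : (0 : ℝ) < T := by exact_mod_cast hT
  have hm : MonotoneOn (fun x => f (x / T)) (Set.Icc 0 (0 + (T : ℝ))) := fun x hx y hy hxy =>
    hf (div_nonneg hx.1 hT'.le) (div_nonneg hy.1 hT'.le) (by gcongr)
  have h1 := hm.sum_le_integral
  have h2 := hm.integral_le_sum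
  have h3 := sum_range_succ' (fun t : ℕ => f (t / T)) T
  rw [sum_range_succ] at h3
  simp only [zero_add, intervalIntegral.integral_comp_div _ hT'.ne', zero_div, div_self hT'.ne',
    smul_eq_mul, Nat.cast_zero] at h1 h2 h3
  exact ⟨h1, by linarith⟩

lemma tanh_mono : Monotone tanh := fun x y h => by
  rw [tanh_eq_sinh_div_cosh, tanh_eq_sinh_div_cosh, div_le_div_iff₀ (cosh_pos x) (cosh_pos y)]
  have := sinh_nonneg_iff.2 (sub_nonneg.2 h)
  rw [sinh_sub] at this
  linarith

lemma tanh_nonneg' {y : ℝ} (h : 0 ≤ y) : 0 ≤ tanh y := tanh_zero ▸ tanh_mono h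

lemma mul_one_sub_tanh {y : ℝ} (_h : 0 ≤ y) : y * (1 - tanh y) ≤ 1 := by
  have ha := exp_pos (-y)
  have hb := exp_pos y
  have e : y * (1 - tanh y) = 2 * y * exp (-y) / (exp y + exp (-y)) := by
    rw [tanh_eq]; field_simp; ring
  have e2 : exp y = exp (2 * y) * exp (-y) := by rw [← exp_add]; congr 1; ring
  rw [e, div_le_one (by positivity), e2]
  nlinarith [add_one_le_exp (2 * y)]

/-- The choice of the profile. -/
lemma profile {α η : ℝ} (h0 : 0 < α) (h1 : α < 1 / 2) (hη : 0 < η) :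
    ∃ (T : ℕ) (κ : ℝ), 0 < T ∧ 0 ≤ κ ∧
      ∑ t ∈ range T, (κ * (t / T) * tanh (κ * (t / T)) - log (cosh (κ * (t / T)))) ≤
        T * (rateI α + η) ∧
      ∑ t ∈ range T, (t : ℝ) * (1 - tanh (κ * (t / T))) + 6 * T ≤ α * T ^ 2 := by
  have hc : Continuous fun κ : ℝ => ∫ s in (0 : ℝ)..1, s * tanh (κ * s) :=
    intervalIntegral.continuous_parametric_intervalIntegral_of_continuous' (by fun_prop) 0 1
  have hK : 1 / 2 - α / 2 ≤ ∫ s in (0 : ℝ)..1, s * tanh (2 / α * s) := by
    rw [← integral_lin 1 (α / 2)]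
    refine intervalIntegral.integral_mono_on zero_le_one
      (by apply Continuous.intervalIntegrable; fun_prop)
      (by apply Continuous.intervalIntegrable; fun_prop) fun s hs => ?_
    have a1 := mul_one_sub_tanh (y := 2 / α * s) (by have := hs.1; positivity)
    have a2 := mul_le_mul_of_nonneg_left a1 (half_pos h0).le
    have a3 : α / 2 * (2 / α * s * (1 - tanh (2 / α * s))) = s * (1 - tanh (2 / α * s)) := by
      field_simp
    linarith
  set ζ := min (α / 2) (η * α / 4) with hζ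
  have z0 : 0 < ζ := by positivity
  have z1 : ζ ≤ α / 2 := min_le_left _ _
  have z2 : ζ ≤ η * α / 4 := min_le_right _ _
  obtain ⟨κ, hκ, eκ⟩ := intermediate_value_Icc (show (0 : ℝ) ≤ 2 / α by positivity) hc.continuousOn
    (show 1 / 2 - α + ζ ∈ Set.Icc _ _ from ⟨by simp; linarith, by linarith⟩)
  have eκ' : ∫ s in (0 : ℝ)..1, s * tanh (κ * s) = 1 / 2 - α + ζ := eκ
  obtain ⟨T, hT⟩ := exists_nat_ge (7 / ζ + 4 / (α * η))
  have p1 : 0 < 7 / ζ := by positivity
  have p2 : 0 < 4 / (α * η) := by positivity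
  have T0 : (0 : ℝ) < T := by linarith
  have T1 : 0 < T := by exact_mod_cast T0
  have T2 : 7 ≤ T * ζ := (div_le_iff₀ z0).1 (by linarith)
  have T3 : 4 ≤ T * (α * η) := (div_le_iff₀ (by positivity)).1 (by linarith)
  have k1 : κ * α ≤ 2 := (le_div_iff₀ h0).1 hκ.2
  obtain ⟨r1, r2⟩ := riemann (f := fun s => s * tanh (κ * s)) (fun x hx y _ hxy =>
    mul_le_mul hxy (tanh_mono (mul_le_mul_of_nonneg_left hxy hκ.1))
      (tanh_nonneg' (mul_nonneg hκ.1 hx)) (hx.trans hxy)) T T1
  obtain ⟨-, r3⟩ := riemann (f := fun s => log (cosh (κ * s))) (fun x hx y _ hxy =>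
    log_le_log (cosh_pos _) (cosh_le_cosh.2 (by
      rw [abs_of_nonneg (mul_nonneg hκ.1 hx), abs_of_nonneg (mul_nonneg hκ.1 (hx.trans hxy))]
      exact mul_le_mul_of_nonneg_left hxy hκ.1))) T T1
  obtain ⟨r4, -⟩ := riemann (f := fun s => s) (fun x _ y _ hxy => hxy) T T1
  simp only [eκ', mul_zero, mul_one, one_mul, zero_mul, cosh_zero, log_one, add_zero,
    integral_id] at r1 r2 r3 r4
  refine ⟨T, κ, T1, hκ.1, ?_, ?_⟩
  · have a1 : log (cosh κ) ≤ κ := by
      rw [log_le_iff_le_exp (cosh_pos _), cosh_eq]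
      have := exp_le_exp.2 (show -κ ≤ κ by linarith [hκ.1])
      linarith
    have a2 := mul_le_mul_of_nonneg_left (term_le_I h0 (by linarith) κ) T0.le
    have a3 := mul_le_mul_of_nonneg_left r1 hκ.1
    have a4 : κ * ζ ≤ η / 2 := by nlinarith [mul_le_mul_of_nonneg_left z2 hκ.1]
    have a5 : κ ≤ T * η / 2 := by
      refine le_of_mul_le_mul_right ?_ h0
      nlinarith
    have a6 := mul_le_mul_of_nonneg_left a4 T0.le
    simp only [sum_sub_distrib, mul_assoc κ, ← mul_sum]
    nlinarith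
  · have e : ∀ t : ℕ, (t : ℝ) * (1 - tanh (κ * (t / T))) =
        T * (t / T - t / T * tanh (κ * (t / T))) := fun t => by field_simp
    simp only [e, ← mul_sum, sum_sub_distrib]
    have a1 := (tanh_lt_one κ).le
    have a2 : ∑ t ∈ range T, (t : ℝ) / T - ∑ t ∈ range T, (t : ℝ) / T * tanh (κ * (t / T)) + 6 ≤
        α * T := by nlinarith
    nlinarith [mul_le_mul_of_nonneg_left a2 T0.le]

end Pool.Agent.MP_dd175f_co

end

section

set_option autoImplicit false

namespace Pool.Agent.MP_dd175f_co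

open Real Finset Filter Topology Nb34004ea

lemma poly_le_exp (A : ℝ) {η : ℝ} (hη : 0 < η) :
    ∀ᶠ m : ℕ in atTop, A * (m : ℝ) ^ 2 ≤ exp (η * m) := by
  filter_upwards [tendsto_natCast_atTop_atTop.eventually_ge_atTop (6 * A / η ^ 3)] with m hm
  have h0 : (0 : ℝ) ≤ m := Nat.cast_nonneg m
  have h1 := pow_div_factorial_le_exp (η * m) (by positivity) 3
  rw [div_le_iff₀ (by positivity)] at hm
  refine le_trans ?_ h1
  rw [le_div_iff₀ (by positivity)]
  norm_num [Nat.factorial]
  nlinarith [mul_le_mul_of_nonneg_right hm (sq_nonneg (m : ℝ))]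

lemma lt_F_exp {α η : ℝ} (h0 : 0 < α) (h1 : α < 1 / 2) (hη : 0 < η) :
    ∃ T : ℕ, 0 < T ∧ ∀ᶠ m : ℕ in atTop, ∀ n : ℕ,
      exp (2 * m * T * (rateI α + 2 * η)) ≤ n → T * m < F n α := by
  obtain ⟨T, κ, hT, hκ, hA, hB⟩ := profile h0 h1 hη
  refine ⟨T, hT, ?_⟩
  filter_upwards [poly_le_exp (16 * exp (2 * κ)) hη, eventually_ge_atTop T] with m hm hmT n hn
  have hm0 : 0 < m := by omega
  have hm1 : (1 : ℝ) ≤ m := by exact_mod_cast hm0
  have hT' : (0 : ℝ) < T := by exact_mod_cast hT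
  have hmT' : (T : ℝ) ≤ m := by exact_mod_cast hmT
  choose i hi hi1 hi2 using fun t : ℕ => mode m (κ * (t / T))
  refine lt_F α m hm0 i hi T (le_trans ?_ hn) ?_
  · have hl : loss m i T ≤ (4 * (m + 1) * exp (2 * κ)) ^ T * exp (m * (T * (rateI α + η))) := by
      unfold loss
      calc ∏ t ∈ range T, 4 * 2 ^ m / (m.choose (i t) : ℝ)
          ≤ ∏ t ∈ range T, (4 * (m + 1) * exp (2 * κ)) *
            exp (m * (κ * (t / T) * tanh (κ * (t / T)) - log (cosh (κ * (t / T))))) := by
            refine prod_le_prod (fun t _ => by positivity) fun t ht => ?_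
            have y0 : 0 ≤ κ * (t / T) := by positivity
            have y1 : κ * (t / T) ≤ κ := mul_le_of_le_one_right hκ
              ((div_le_one hT').2 (by exact_mod_cast (mem_range.1 ht).le))
            have a := (abs_le.1 (hi2 t)).2
            rw [mul_div_assoc, mul_assoc, mul_assoc, ← exp_add]
            refine mul_le_mul_of_nonneg_left ((hi1 t).trans ?_) (by norm_num)
            refine mul_le_mul_of_nonneg_left (exp_le_exp.2 ?_) (by positivity)
            nlinarith [mul_le_mul_of_nonneg_left a y0]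
        _ = (4 * (m + 1) * exp (2 * κ)) ^ T * exp (m * ∑ t ∈ range T,
            (κ * (t / T) * tanh (κ * (t / T)) - log (cosh (κ * (t / T))))) := by
            rw [prod_mul_distrib, prod_const, card_range, ← exp_sum, mul_sum]
        _ ≤ _ := by gcongr
    have h2 : 2 * (m : ℝ) * (4 * (m + 1) * exp (2 * κ)) ^ T ≤ exp (η * m * T) := by
      calc 2 * (m : ℝ) * (4 * (m + 1) * exp (2 * κ)) ^ T
          ≤ (2 * (m : ℝ)) ^ T * (4 * (m + 1) * exp (2 * κ)) ^ T := by
            gcongr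
            exact le_self_pow₀ (by linarith) hT.ne'
        _ ≤ exp (η * m) ^ T := by
            rw [← mul_pow]
            gcongr
            refine le_trans ?_ hm
            nlinarith [exp_pos (2 * κ), mul_le_mul_of_nonneg_right hm1 (exp_pos (2 * κ)).le,
              mul_le_mul_of_nonneg_left (mul_le_mul_of_nonneg_right hm1 (exp_pos (2 * κ)).le)
                (zero_le_one.trans hm1)]
        _ = _ := by rw [← exp_nat_mul]; congr 1; ring
    have h3 : 2 * (m : ℝ) * loss m i T ≤ exp (m * T * (rateI α + 2 * η)) := by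
      calc 2 * (m : ℝ) * loss m i T
          ≤ 2 * (m : ℝ) * (4 * (m + 1) * exp (2 * κ)) ^ T * exp (m * (T * (rateI α + η))) := by
            rw [mul_assoc (2 * (m : ℝ))]
            gcongr
        _ ≤ exp (η * m * T) * exp (m * (T * (rateI α + η))) := by gcongr
        _ = _ := by rw [← exp_add]; congr 1; ring
    have h4 : 0 ≤ 2 * (m : ℝ) * loss m i T :=
      mul_nonneg (by positivity) (zero_le_one.trans (one_le_loss m i hi T))
    calc 4 * (m : ℝ) ^ 2 * loss m i T * loss m i T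
        = (2 * (m : ℝ) * loss m i T) * (2 * (m : ℝ) * loss m i T) := by ring
      _ ≤ exp (m * T * (rateI α + 2 * η)) * exp (m * T * (rateI α + 2 * η)) :=
          mul_self_le_mul_self h4 h3
      _ = _ := by rw [← exp_add]; congr 1; ring
  · rw [Nat.cast_choose_two]
    push_cast
    calc ∑ t ∈ range T, ((m : ℝ) ^ 2 + t * m * i t)
        ≤ ∑ t ∈ range T, (2 * (m : ℝ) ^ 2 + m ^ 2 / 2 * (t * (1 - tanh (κ * (t / T))))) := by
          refine sum_le_sum fun t ht => ?_
          have a := (abs_le.1 (hi2 t)).1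
          have t1 : (t : ℝ) ≤ m := by exact_mod_cast (mem_range.1 ht).le.trans hmT
          have t0 : (0 : ℝ) ≤ t * m := by positivity
          nlinarith [mul_le_mul_of_nonneg_left a t0,
            mul_le_mul_of_nonneg_right t1 (zero_le_one.trans hm1)]
      _ = 2 * T * (m : ℝ) ^ 2 + m ^ 2 / 2 * ∑ t ∈ range T, (t * (1 - tanh (κ * (t / T)))) := by
          rw [sum_add_distrib, sum_const, card_range, ← mul_sum, nsmul_eq_mul]
          ring
      _ ≤ _ := by
          have a := mul_le_mul_of_nonneg_left hB (by positivity : (0 : ℝ) ≤ m ^ 2 / 2)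
          have b : α * (T * m) ≤ T * m ^ 2 := by
            have : (0 : ℝ) ≤ T * m := by positivity
            nlinarith [mul_le_mul_of_nonneg_left hm1 this]
          nlinarith

lemma tendsto_log_nat : Tendsto (fun n : ℕ => log n) atTop atTop :=
  tendsto_log_atTop.comp tendsto_natCast_atTop_atTop

lemma lower {α c : ℝ} (h0 : 0 < α) (h1 : α < 1 / 2) (hc : c < 1 / (2 * rateI α)) :
    ∀ᶠ n : ℕ in atTop, c * log n ≤ F n α := by
  have hI := rateI_pos h0 h1
  obtain ⟨η, hη, hJ⟩ : ∃ η : ℝ, 0 < η ∧ c < 1 / (2 * (rateI α + 2 * η)) := by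
    have t : Tendsto (fun η : ℝ => 1 / (2 * (rateI α + 2 * η))) (𝓝[>] 0)
        (𝓝 (1 / (2 * (rateI α + 2 * 0)))) :=
      (ContinuousAt.tendsto (f := fun η : ℝ => 1 / (2 * (rateI α + 2 * η)))
        (by fun_prop (disch := positivity))).mono_left nhdsWithin_le_nhds
    rw [mul_zero, add_zero] at t
    exact (eventually_mem_nhdsWithin.and (t.eventually_const_lt hc)).exists
  obtain ⟨T, hT, hev⟩ := lt_F_exp h0 h1 hη
  have hT' : (0 : ℝ) < T := by exact_mod_cast hT
  set J := rateI α + 2 * η with hJd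
  have hJ0 : 0 < J := by positivity
  have t1 : Tendsto (fun n : ℕ => ⌊log n / (2 * T * J)⌋₊) atTop atTop :=
    tendsto_nat_floor_atTop.comp (tendsto_log_nat.atTop_div_const (by positivity))
  filter_upwards [t1.eventually hev, eventually_gt_atTop 0,
    tendsto_log_nat.eventually_ge_atTop (T / (1 / (2 * J) - c))] with n h hn hL
  have hn' : (0 : ℝ) < n := by exact_mod_cast hn
  have hl0 : 0 ≤ log n := log_natCast_nonneg n
  have a := Nat.floor_le (a := log n / (2 * T * J)) (by positivity)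
  have b := Nat.lt_floor_add_one (log n / (2 * T * J))
  rw [le_div_iff₀ (by positivity)] at a
  have h2 := h n (by
    rw [← le_log_iff_exp_le hn']
    linarith)
  have h3 : (T : ℝ) * ⌊log n / (2 * T * J)⌋₊ ≤ F n α := by exact_mod_cast h2.le
  rw [div_le_iff₀ (sub_pos.2 hJ)] at hL
  have e : T * (log n / (2 * T * J)) = log n * (1 / (2 * J)) := by field_simp
  nlinarith [mul_lt_mul_of_pos_left b hT']

end Pool.Agent.MP_dd175f_co

end
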